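import Mathlib

set_option autoImplicit false

open FirstOrder FirstOrder.Language

namespace Pool.Agent.H.MP_e23b49_lc

inductive Op : ℕ → Type
  | mk : Option ℕ → Op 1

def LL : FirstOrder.Language.{0, 0} := ⟨Op, fun _ => Empty⟩

@[reducible] def mkStr {M : Type} (act : Option ℕ → M → M) : LL.Structure M where
  funMap := fun {_} f v => match f, v with
    | Op.mk o, v => act o (v 0)
  RelMap := fun r => r.elim

def op {M : Type} [LL.Structure M] (o : Option ℕ) (x : M) : M :=
  Structure.funMap (L := LL) (Op.mk o) ![x]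

theorem funMap_eq {M : Type} [LL.Structure M] (o : Option ℕ) (v : Fin 1 → M) :
    Structure.funMap (L := LL) (Op.mk o) v = op o (v 0) := by
  unfold op; congr 1; funext i; fin_cases i; rfl

def tm {α : Type} (o : Option ℕ) (t : LL.Term α) : LL.Term α := Term.func (Op.mk o) ![t]

@[simp] theorem realize_tm {M α : Type} [LL.Structure M] (o : Option ℕ) (t : LL.Term α)
    (v : α → M) : (tm o t).realize v = op o (t.realize v) := by
  simp only [tm, Term.realize]; rw [funMap_eq]; rfl

theorem hom_op {M N : Type} [LL.Structure M] [LL.Structure N] (h : LL.Hom M N) (o : Option ℕ)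
    (x : M) : h (op o x) = op o (h x) := by
  unfold op; rw [h.map_fun, funMap_eq]; rfl

def x0 : LL.Term (Fin 1) := Term.var 0

def EE : Set (Σ n : ℕ, LL.Term (Fin n) × LL.Term (Fin n)) :=
  {e | (∃ i j, e = ⟨1, tm none (tm (some i) x0), tm none (tm (some j) x0)⟩) ∨
       (∃ i j, e = ⟨1, tm none (tm (some i) (tm (some j) x0)), tm none x0⟩) ∨
       (∃ o, e = ⟨1, tm o (tm none x0), tm none x0⟩)}

def Sat (M : Type) [LL.Structure M] : Prop :=
  ∀ e ∈ EE, ∀ v : Fin e.1 → M, e.2.1.realize v = e.2.2.realize v

theorem sat_iff (M : Type) [LL.Structure M] : Sat M ↔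
    (∀ i j (x : M), op none (op (some i) x) = op none (op (some j) x)) ∧
    (∀ i j (x : M), op none (op (some i) (op (some j) x)) = op none x) ∧
    (∀ o (x : M), op o (op none x) = op none x) := by
  constructor
  · intro h
    refine ⟨fun i j x => ?_, fun i j x => ?_, fun o x => ?_⟩
    · simpa [x0] using h _ (Or.inl ⟨i, j, rfl⟩) (fun _ => x)
    · simpa [x0] using h _ (Or.inr (Or.inl ⟨i, j, rfl⟩)) (fun _ => x)
    · simpa [x0] using h _ (Or.inr (Or.inr ⟨o, rfl⟩)) (fun _ => x)
  · rintro ⟨h1, h2, h3⟩ e (⟨i, j, rfl⟩ | ⟨i, j, rfl⟩ | ⟨o, rfl⟩) v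
    · simpa [x0] using h1 i j _
    · simpa [x0] using h2 i j _
    · simpa [x0] using h3 o _

abbrev W : Type := List ℕ ⊕ Bool

def actW : Option ℕ → W → W
  | some i, .inl w => .inl (i :: w)
  | none, .inl w => .inr w.length.bodd
  | _, .inr b => .inr b

instance : LL.Structure W := mkStr actW

theorem opW (o : Option ℕ) (x : W) : op o x = actW o x := rfl

theorem satW : Sat W := by
  rw [sat_iff]
  refine ⟨fun i j x => ?_, fun i j x => ?_, fun o x => ?_⟩
  · cases x <;> simp [opW, actW]
  · cases x <;> simp [opW, actW]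
  · cases x <;> cases o <;> simp [opW, actW]

theorem opW_ne (o : Option ℕ) (x : W) : op o x ≠ Sum.inl [] := by
  cases x <;> cases o <;> simp [opW, actW]

def toM {M : Type} [LL.Structure M] (p : M) : W → M
  | .inl w => w.foldr (fun i x => op (some i) x) p
  | .inr false => op none p
  | .inr true => op none (op (some 0) p)

theorem toM_op {M : Type} [LL.Structure M] (hM : Sat M) (p : M) (o : Option ℕ) (x : W) :
    toM p (op o x) = op o (toM p x) := by
  obtain ⟨h1, h2, h3⟩ := (sat_iff M).1 hM
  have key : ∀ w : List ℕ, op none (toM p (.inl w)) = toM p (.inr w.length.bodd) ∧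
      ∀ i, op none (op (some i) (toM p (.inl w))) = toM p (.inr (!w.length.bodd)) := by
    intro w
    induction w with
    | nil => exact ⟨rfl, fun i => h1 i 0 p⟩
    | cons j w ih =>
      refine ⟨?_, fun i => ?_⟩
      · have := ih.2 j
        rw [List.length_cons, Nat.bodd_succ]; exact this
      · have : toM p (.inl (j :: w)) = op (some j) (toM p (.inl w)) := rfl
        rw [this, h2]; simpa using ih.1
  rcases x with w | b
  · cases o with
    | none => exact (key w).1.symm
    | some i => rfl
  · have : op o (Sum.inr b : W) = Sum.inr b := by cases o <;> rfl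
    rw [this]
    cases b <;> exact (h3 _ _).symm

theorem freeW (M : Type) [LL.Structure M] (hM : Sat M) (f : Fin 1 → M) :
    ∃! h : LL.Hom W M, ⇑h ∘ (fun _ : Fin 1 => (Sum.inl [] : W)) = f := by
  refine ⟨⟨toM (f 0), ?_, fun r => r.elim⟩, ?_, ?_⟩
  · rintro n ⟨o⟩ v
    rw [funMap_eq, funMap_eq, toM_op hM]; rfl
  · funext i; fin_cases i; rfl
  · intro g hg
    have h0 : g (Sum.inl []) = f 0 := congrFun hg 0
    have h1 : ∀ w : List ℕ, g (Sum.inl w) = toM (f 0) (Sum.inl w) := by
      intro w
      induction w with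
      | nil => exact h0
      | cons i w ih =>
        have : (Sum.inl (i :: w) : W) = op (some i) (Sum.inl w) := rfl
        rw [this, hom_op, ih, toM_op hM]
    ext x
    show g x = toM (f 0) x
    rcases x with w | b
    · exact h1 w
    · cases b
      · have : (Sum.inr false : W) = op none (Sum.inl []) := rfl
        rw [this, hom_op, h1, toM_op hM]
      · have : (Sum.inr true : W) = op none (Sum.inl [0]) := rfl
        rw [this, hom_op, h1, toM_op hM]

/-- swap the parity of the final run of the letter `j` -/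
def sw (j : ℕ) : List ℕ → List ℕ
  | [] => [j]
  | i :: w => if ∀ a ∈ i :: w, a = j then (if w.length.bodd then j :: i :: w else w)
      else i :: sw j w

theorem sw_pure (j : ℕ) (w : List ℕ) : (∀ a ∈ sw j w, a = j) ↔ ∀ a ∈ w, a = j := by
  induction w with
  | nil => simp [sw]
  | cons i w ih =>
    unfold sw
    split_ifs with h1 h2
    · simp only [List.forall_mem_cons] at h1 ⊢; tauto
    · simp only [List.forall_mem_cons] at h1 ⊢; tauto
    · simp only [List.forall_mem_cons] at h1 ⊢; tauto

theorem sw_len (j : ℕ) (w : List ℕ) : (sw j w).length.bodd = !w.length.bodd := by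
  induction w with
  | nil => simp [sw]
  | cons i w ih =>
    unfold sw
    split_ifs with h1 h2
    · simp
    · simp
    · simp [ih]

theorem sw_sw (j : ℕ) (w : List ℕ) : sw j (sw j w) = w := by
  induction w with
  | nil => simp [sw]
  | cons i w ih =>
    by_cases h1 : ∀ a ∈ i :: w, a = j
    · by_cases h2 : w.length.bodd
      · have e : sw j (i :: w) = j :: i :: w := by rw [sw, if_pos h1, if_pos h2]
        rw [e, sw, if_pos (by simpa using h1), if_neg (by simp [h2])]
      · have e : sw j (i :: w) = w := by rw [sw, if_pos h1, if_neg h2]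
        rw [e]
        have hi : i = j := h1 i (by simp)
        cases w with
        | nil => simp [sw, hi]
        | cons k w =>
          rw [sw, if_pos (fun a ha => h1 a (List.mem_cons_of_mem _ ha)),
            if_pos (by simpa using h2), hi]
    · have e : sw j (i :: w) = i :: sw j w := by rw [sw, if_neg h1]
      rw [e, sw, if_neg, ih]
      simp only [List.forall_mem_cons, sw_pure] at h1 ⊢
      exact h1

def sig (j : ℕ) : W → W
  | .inl w => .inl (sw j w)
  | .inr b => .inr (!b)

theorem sig_sig (j : ℕ) (x : W) : sig j (sig j x) = x := by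
  cases x <;> simp [sig, sw_sw]

theorem sig_inj (j : ℕ) : Function.Injective (sig j) :=
  Function.LeftInverse.injective (sig_sig j)

theorem sig_op (j : ℕ) (o : Option ℕ) (ho : o ≠ some j) (x : W) :
    sig j (op o x) = op o (sig j x) := by
  rcases x with w | b
  · cases o with
    | none => simp [opW, actW, sig, sw_len]
    | some i =>
      have : i ≠ j := fun h => ho (by rw [h])
      simp only [opW, actW, sig]
      rw [sw, if_neg (fun h => this (h i (by simp)))]
  · cases o <;> rfl

theorem term_inv {α : Type} (t : LL.Term α) : ∃ N, ∀ j, N ≤ j → ∀ v : α → W,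
    t.realize (sig j ∘ v) = sig j (t.realize v) := by
  induction t with
  | var a => exact ⟨0, fun _ _ _ => rfl⟩
  | func f ts ih =>
    obtain ⟨o⟩ := f
    obtain ⟨N, hN⟩ := ih 0
    refine ⟨N + o.getD 0 + 1, fun j hj v => ?_⟩
    simp only [Term.realize]
    rw [funMap_eq, funMap_eq, hN j (by omega), sig_op]
    rintro rfl
    simp only [Option.getD_some] at hj; omega

theorem form_inv {α : Type} {n : ℕ} (φ : LL.BoundedFormula α n) : ∃ N, ∀ j, N ≤ j →
    ∀ (v : α → W) (xs : Fin n → W), φ.Realize (sig j ∘ v) (sig j ∘ xs) ↔ φ.Realize v xs := by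
  induction φ with
  | falsum => exact ⟨0, fun _ _ _ _ => Iff.rfl⟩
  | equal t1 t2 =>
    obtain ⟨N1, h1⟩ := term_inv t1
    obtain ⟨N2, h2⟩ := term_inv t2
    refine ⟨N1 + N2, fun j hj v xs => ?_⟩
    simp only [BoundedFormula.Realize]
    rw [← Sum.comp_elim, h1 j (by omega), h2 j (by omega)]
    exact (sig_inj j).eq_iff
  | rel r => exact r.elim
  | imp φ ψ ih1 ih2 =>
    obtain ⟨N1, h1⟩ := ih1
    obtain ⟨N2, h2⟩ := ih2
    refine ⟨N1 + N2, fun j hj v xs => ?_⟩
    simp only [BoundedFormula.realize_imp]
    rw [h1 j (by omega), h2 j (by omega)]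
  | all φ ih =>
    obtain ⟨N, h⟩ := ih
    refine ⟨N, fun j hj v xs => ?_⟩
    simp only [BoundedFormula.realize_all]
    constructor
    · intro H a
      rw [← h j hj, Fin.comp_snoc]; exact H _
    · intro H a
      have := (h j hj v _).2 (H (sig j a))
      rwa [Fin.comp_snoc, sig_sig] at this

theorem not_homog : ¬ ((∀ φ : LL.Formula (Fin 1),
      φ.Realize (fun _ => (Sum.inr false : W)) ↔ φ.Realize (fun _ => (Sum.inr true : W))) ↔
    ∃ σ : LL.Equiv W W, ⇑σ ∘ (fun _ : Fin 1 => (Sum.inr true : W)) = fun _ => Sum.inr false) := by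
  intro h
  obtain ⟨σ, hσ⟩ := h.1 (by
    intro φ
    obtain ⟨N, hN⟩ := form_inv φ
    have := hN N le_rfl (fun _ => (Sum.inr true : W)) default
    unfold Formula.Realize
    convert this using 2 <;> first | rfl | exact Subsingleton.elim _ _)
  have h1 : σ (Sum.inr true) = Sum.inr false := congrFun hσ 0
  have hop : ∀ o x, σ (op o x) = op o (σ x) := fun o x => hom_op σ.toHom o x
  have h0 : σ (Sum.inl []) = Sum.inl [] := by
    obtain ⟨y, hy⟩ := σ.surjective (Sum.inl [])
    rcases y with (_ | ⟨i, w⟩) | b
    · exact hy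
    · exact absurd ((hop (some i) (Sum.inl w)).symm.trans hy) (opW_ne _ _)
    · exact absurd ((hop none (Sum.inr b)).symm.trans hy) (opW_ne _ _)
  have h2 : σ (Sum.inr false) = Sum.inr false := by
    have := hop none (Sum.inl [])
    rw [h0] at this; exact this
  have := σ.injective (h1.trans h2.symm)
  simp at this

theorem transfer {F H : Type} [LL.Structure F] [LL.Structure H] (m : ℕ)
    (h : ∀ T : Set (LL.Formula (Fin m)),
      {φ : LL.Formula (Fin m) | ∀ a : Fin m → F, (∀ ψ ∈ T, ψ.Realize a) → φ.Realize a} =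
      {φ : LL.Formula (Fin m) | ∀ a : Fin m → H, (∀ ψ ∈ T, ψ.Realize a) → φ.Realize a})
    (a : Fin m → F) : ∃ b : Fin m → H, ∀ φ : LL.Formula (Fin m), φ.Realize a → φ.Realize b := by
  by_contra hcon
  have h1 : (⊥ : LL.Formula (Fin m)) ∈ {φ : LL.Formula (Fin m) | ∀ b : Fin m → H,
      (∀ ψ ∈ {φ : LL.Formula (Fin m) | φ.Realize a}, ψ.Realize b) → φ.Realize b} := by
    intro b hb
    exact absurd ⟨b, hb⟩ hcon
  rw [← h] at h1
  exact h1 a (fun ψ hψ => hψ)

def imF {α : Type} (o : Option ℕ) (i : α) : LL.Formula α :=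
  BoundedFormula.ex (Term.bdEqual (tm o (Term.var (Sum.inr 0))) (Term.var (Sum.inl i)))

theorem realize_imF {M α : Type} [LL.Structure M] (o : Option ℕ) (i : α) (v : α → M) :
    (imF o i).Realize v ↔ ∃ y, op o y = v i := by
  simp [imF, Formula.Realize, Fin.snoc]

theorem regular (n : ℕ) (F : Type) [LL.Structure F] (ι : Fin n → F) (hF : Sat F)
    (hfree : ∀ (M : Type) [LL.Structure M], Sat M →
      ∀ f : Fin n → M, ∃! h : LL.Hom F M, ⇑h ∘ ι = f)
    (H : Type) [LL.Structure H] (hH : Sat H)
    (hiso : ∀ (m : ℕ) (T : Set (LL.Formula (Fin m))),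
      {φ : LL.Formula (Fin m) | ∀ a : Fin m → F, (∀ ψ ∈ T, ψ.Realize a) → φ.Realize a} =
      {φ : LL.Formula (Fin m) | ∀ a : Fin m → H, (∀ ψ ∈ T, ψ.Realize a) → φ.Realize a}) :
    Nonempty (LL.Equiv F H) := by
  have gen : ∀ x : F, ∃ t : LL.Term (Fin n), t.realize ι = x := by
    let S : LL.Substructure F :=
      { carrier := Set.range (fun t : LL.Term (Fin n) => t.realize ι)
        fun_mem := by
          intro k f x hx
          choose t ht using hx
          exact ⟨Term.func f t, by simp only [Term.realize]; congr 1; funext i; exact ht i⟩ }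
    have hS : Sat S := by
      intro e he v
      apply Subtype.ext
      have := hF e he (S.subtype ∘ v)
      rwa [HomClass.realize_term, HomClass.realize_term] at this
    obtain ⟨h, hh, -⟩ := hfree S hS (fun i => ⟨ι i, Term.var i, rfl⟩)
    obtain ⟨g, -, hg⟩ := hfree F hF ι
    have e1 := hg (S.subtype.toHom.comp h) (by
      funext i; exact congrArg Subtype.val (congrFun hh i))
    have e2 := hg (Hom.id LL F) rfl
    intro x
    have : (S.subtype.toHom.comp h) x = x := by rw [e1, ← e2]; rfl
    rw [← this]
    exact (h x).2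
  have notim : ∀ i o y, op o y ≠ ι i := by
    intro i o y hy
    obtain ⟨h, hh, -⟩ := hfree W satW (fun _ => Sum.inl [])
    have := congrArg h hy
    rw [hom_op] at this
    exact opW_ne _ _ (this.trans (congrFun hh i))
  have inj : Function.Injective ι := by
    let _ : LL.Structure (Fin n) := mkStr (fun _ x => x)
    obtain ⟨h, hh, -⟩ := hfree (Fin n) ((sat_iff _).2 ⟨fun _ _ _ => rfl, fun _ _ _ => rfl,
      fun _ _ => rfl⟩) id
    exact Function.Injective.of_comp (f := h) (by rw [hh]; exact Function.injective_id)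
  obtain ⟨g, hg⟩ := transfer n (hiso n) ι
  obtain ⟨h, hh, -⟩ := hfree H hH g
  have hreal : ∀ t : LL.Term (Fin n), h (t.realize ι) = t.realize g := by
    intro t; rw [← hh, HomClass.realize_term]
  have hinj : Function.Injective h := by
    intro x y hxy
    obtain ⟨s, rfl⟩ := gen x
    obtain ⟨t, rfl⟩ := gen y
    by_contra hne
    have := hg (s.equal t).not (by simpa using hne)
    rw [hreal, hreal] at hxy
    simp [hxy] at this
  have hsurj : Function.Surjective h := by
    intro z
    obtain ⟨c, hc⟩ := transfer (n + 1) (fun T => (hiso (n + 1) T).symm) (Fin.cons z g)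
    have hc' : ∀ φ : LL.Formula (Fin (n + 1)), φ.Realize c → φ.Realize (Fin.cons z g : _ → H) := by
      intro φ hφ
      by_contra hn
      have := hc φ.not (by simpa using hn)
      simp [hφ] at this
    have hb : ∀ i : Fin n, ∃ k, c i.succ = ι k := by
      intro i
      obtain ⟨t, ht⟩ := gen (c i.succ)
      cases t with
      | var k => exact ⟨k, ht.symm⟩
      | func f ts =>
        exfalso
        obtain ⟨o⟩ := f
        simp only [Term.realize] at ht
        rw [funMap_eq] at ht
        have h1 := (realize_imF o i.succ _).1 (hc' _ ((realize_imF o i.succ c).2 ⟨_, ht⟩))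
        have h2 := hg (imF o i).not (by
          rw [Formula.realize_not, realize_imF]; rintro ⟨y, hy⟩; exact notim i o y hy)
        rw [Formula.realize_not, realize_imF] at h2
        exact h2 (by simpa using h1)
    choose π hπ using hb
    have πinj : Function.Injective π := by
      intro i j hij
      have h1 := hc' ((Term.var i.succ).equal (Term.var j.succ)) (by
        simp [hπ, hij])
      by_contra hne
      have h2 := hg ((Term.var i).equal (Term.var j)).not (by simpa using inj.ne hne)
      simp at h1 h2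
      exact h2 h1
    have πsurj := Finite.surjective_of_injective πinj
    choose ρ hρ using πsurj
    obtain ⟨t, ht⟩ := gen (c 0)
    have h1 := hc' ((Term.var 0).equal (t.relabel (fun k => (ρ k).succ))) (by
      simp only [Formula.realize_equal, Term.realize_var, Term.realize_relabel]
      rw [← ht]; congr 1; funext k; simp [hπ, hρ])
    refine ⟨(t.relabel ρ).realize ι, ?_⟩
    rw [hreal]
    simp only [Formula.realize_equal, Term.realize_var, Term.realize_relabel, Fin.cons_zero] at h1 ⊢
    rw [h1]; rfl
  exact ⟨{ Equiv.ofBijective h ⟨hinj, hsurj⟩ with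
    map_fun' := fun f x => h.map_fun f x
    map_rel' := fun r => r.elim }⟩

end Pool.Agent.H.MP_e23b49_lc
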